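import Mathlib
import Pool.Agent.W425.GN.Top
import Pool.Agent.W425.SU.Final

/-!
# The local monodromy conjecture for generic coefficients at the vertices

Let `F ⊆ ℂ` be a field and `f = ∑_j a_j x ^ (v j) + h`, where `h ∈ F[x_1, …, x_N]` is an ARBITRARY
polynomial whose exponents lie in the Newton polyhedron of the `v j ≠ 0`, and only the coefficients
`a_j` (for instance at the vertices of the Newton polyhedron) are generic: `g(a) ≠ 0` for a certain
nonzero polynomial `g` with coefficients in `F`. Then `f` is nondegenerate and `b_{f,0}(s) Z_0(s)` is
a polynomial in `s`, where `b_{f,0}` is the Bernstein-Sato polynomial of the germ of `f` at the origin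
and `Z_0` its local topological zeta function: every pole of `Z_0` is a root of `b_{f,0}`, of at least
the same order. It is enough that `f` has this form after a diagonal change of variables
`x_l → t_l x_l` and multiplication by a constant.

Method. For coefficients `a_j` which are algebraically independent over `F` this is
`finalLocalC` (`Pool/Agent/W422/GC/Up.lean`), proved from the functional equation of `b_{f,0}`. Now
`(s - α) ^ (m + 1)` divides `b_{f,0}` if and only if there is no identity
`(s - α) ^ m u f ^ s = P(s) f ^ (s + 1) + (s - α) ^ (m + 1) Q(s) f ^ s` with `u(0) = 1`. Gröbner bases in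
the Weyl algebra over `F(a_1, …, a_r)`, spread out over `F[a_1, …, a_r, 1 / g]`, show that such an
identity for one member of the family with `g(a) ≠ 0` gives one for the generic member.
-/

set_option autoImplicit false

namespace Pool.Agent.Results.MP_aa7fc1_ag.GenericCoefficientsLocal

open Polynomial Pool.Agent.W425.SM Pool.Agent.W425.SV Pool.Agent.W422.GC Pool.Agent.W425.MM

/-- **The monodromy conjecture at the origin, in the strong form with multiplicities, for
`f = ∑_j a_j x ^ (v j) + h`, `h` arbitrary over the field `F` with exponents in the Newton
polyhedron of the `v j`, the `a_j` generic (after a diagonal change of variables).**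

`NonD v c`, here for the exponents and coefficients of `∑_j a_j x ^ (v j)` together with those of `h`
(`we h` and `wc h`), says that `∑_j a_j x ^ (v j) + h` is nondegenerate: for every `u ∈ ℕ ^ N` the face
polynomial `f_u` and all the `x_i ∂ f_u / ∂ x_i` have no common zero with all coordinates nonzero.

`IsLocalBFunction f b` says that `b(s) f ^ s = P(s) f ^ (s + 1)` for a differential operator `P(s)`
with (formal, in particular convergent) power series at the origin as coefficients. The
Bernstein-Sato polynomial `b_{f,0}` is the monic one of least degree of these polynomials (for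
convergent power series).

`R` is any smooth fan with support the positive orthant on which the ideal `(x ^ (v j))_j` becomes
principal, and `topZetaGLocal v R` is the local topological zeta function of `f` at the origin,
computed on the embedded resolution `X_R`: the sum over the cones `σ` of `R` whose orbit lies over
the origin of
`((chiO σ - chiG v R σ) + chiG v R σ / (s + 1)) ∏_{ρ ∈ σ} 1 / (ord(ρ) s + |ρ|)`.
Here `chiO σ` is the Euler characteristic of the torus orbit of `σ` and
`chiG v R σ = (-1) ^ (N - dim σ - 1) Vol` (for `dim σ < N`, and `0` for `dim σ = N`) that of the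
strict transform of `{f = 0}` in the orbit (Kouchnirenko), where `Vol` is the normalised volume of
the compact face of `σ` of the Newton polyhedron of the `v j`: the Lebesgue volume in lattice
coordinates, divided by that of the standard simplex. -/
theorem result {r N : ℕ} (hr : 1 ≤ r) (F : Subfield ℂ) (v : Fin r → Fin N → ℕ)
    (hv : Function.Injective v) (hv0 : ∀ j, v j ≠ 0)
    (h : MvPolynomial (Fin N) F) (hh : ∀ w ∈ h.support, NP v w) :
    ∃ g : MvPolynomial (Fin r) F, g ≠ 0 ∧ ∀ a : Fin r → ℂ, MvPolynomial.aeval a g ≠ 0 →
      NonD (Fin.append v (we h)) (Fin.append a (fun l => algebraMap F ℂ (wc h l))) ∧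
      ∀ (f : MvPolynomial (Fin N) ℂ) (c : ℂ) (t : Fin N → ℂ), c ≠ 0 → (∀ l, t l ≠ 0) →
        MvPolynomial.C c *
          MvPolynomial.aeval (fun l => MvPolynomial.C (t l) * MvPolynomial.X l) f =
          sparse v a + MvPolynomial.map (algebraMap F ℂ) h →
        ∀ b : ℂ[X], Pool.Agent.H628R4.TP.IsLocalBFunction f b →
        ∀ R : SmoothFan N, Principal v R →
        ∃ P : ℂ[X], algebraMap ℂ[X] (RatFunc ℂ) b * topZetaGLocal v R =
          algebraMap ℂ[X] (RatFunc ℂ) P := by
  obtain ⟨g, hg, hga⟩ := Pool.Agent.W425.GN.gen_topL (F := F) hr v hv hv0 h hh
  exact ⟨g, hg, fun a ha => ⟨(hga a ha).1, fun f c t hc ht hf b hb R hR =>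
    (hga a ha).2 b (hf ▸ Pool.Agent.W578.SI.taskI2.2.2 f b c t hc ht hb) R hR⟩⟩

end Pool.Agent.Results.MP_aa7fc1_ag.GenericCoefficientsLocal
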