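import Mathlib
import Pool.Agent.W425.ND.Fin1

/-!
# The local monodromy conjecture for all Newton-nondegenerate polynomials

Let `f = ∑_j a_j x ^ (v j)`, `f(0) = 0`, be a polynomial in any number of variables which is
nondegenerate with respect to its Newton polytope (for every face of the polytope, the face
polynomial and its derivatives have no common zero in the torus; this is a Zariski open condition
on the coefficients of a given polytope; no genericity beyond this condition is assumed, and the
singularity at the origin need not be isolated). Then every pole `s0` of the local topological zeta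
function of `f` at the origin satisfies `b_{f,0}(s0 - i) = 0` for some natural number `i`, where
`b_{f,0}` is the Bernstein-Sato polynomial of the germ of `f` at the origin. By the theorem of
Malgrange and Kashiwara, `exp(2 π i s0)` is an eigenvalue of the monodromy of `f` at some point of
`{f = 0}` near the origin.

Method. (1) By Kouchnirenko's theorem the modules of the sequences
`s ↦ s (s - 1) ⋯ (s - m + 1) x ^ c f ^ (s - m)`, `c` in `m` times the Newton polytope, are finitely
generated over the commutative ring `ℂ[s, x_1 ∂_1, …, x_N ∂_N]`, also in a family over `ℂ⟦τ⟧` with
special member `f` and very general coefficients for the other members, where they carry a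
connection `∇_τ`. (2) A finitely generated module over `ℂ⟦τ⟧[s, θ]` with connection has no
`τ`-divisible elements. So the functional equation of `f` extends to the family, for
`b(s) b(s - 1) ⋯ b(s - K)`. (3) The functional equation with very general coefficients, with
derivatives in the coefficients allowed, gives the pole part of the topological zeta function.
-/

set_option autoImplicit false

namespace Pool.Agent.Results.MP_aa7fc1_ag.NondegenerateLocal

open Polynomial Pool.Agent.H628R4.TZ Pool.Agent.W425.SM Pool.Agent.W422.GC Pool.Agent.W425.ND

/-- **The (weak) monodromy conjecture for the local topological zeta function at the origin of every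
polynomial `f = ∑_j a_j x ^ (v j)`, `f(0) = 0`, which is nondegenerate with respect to its Newton
polytope.**

`Nondeg v a` says that for every face of the convex hull of the `v j` (the face where the linear
form `w ∈ ℝ ^ N` is minimal, `w = 0` included) the face polynomial of `f` and its logarithmic
derivatives `x_i ∂_i` have no common zero in `(ℂ \ 0) ^ N`. `IsLocalBFunction f b` says that
`b(s) f ^ s = P(s) f ^ (s + 1)` for a differential operator `P(s)` with (formal, in particular
convergent) power series at the origin as coefficients, polynomial in `s`; for example
`b = b_{f,0}`, the Bernstein-Sato polynomial of the germ.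

`R` is any smooth fan with support the positive orthant on which the ideal `(x ^ (v j))_j` becomes
principal, and `topZetaGLocal v R` is the local topological zeta function of `f` at the origin,
computed on the embedded resolution `X_R`: the sum over the cones `σ` of `R` whose orbit lies over
the origin of
`((chiO σ - chiG v R σ) + chiG v R σ / (s + 1)) ∏_{ρ ∈ σ} 1 / (ord(ρ) s + |ρ|)`,
`chiO σ` the Euler characteristic of the torus orbit of `σ` and `chiG v R σ` that of the strict
transform of `{f = 0}` in the orbit, `(-1) ^ (N - dim σ - 1)` times the normalised volume of the face
of `σ` (Kouchnirenko).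

First assertion: `(s + 1) b(s) b(s - 1) ⋯ b(s - K) Z(s)` is a polynomial for some `K`. Second
assertion: for every pole `s0` of `Z` there is `i ∈ ℕ` with `b(s0 - i) = 0`. -/
theorem result {r N : ℕ} (hr : 1 ≤ r) (v : Fin r → Fin N → ℕ) (a : Fin r → ℂ)
    (hv : Function.Injective v) (hv0 : ∀ j, v j ≠ 0) (hnd : Nondeg v a) (R : SmoothFan N)
    (hR : Principal v R) (b : ℂ[X]) (hb0 : b ≠ 0)
    (hb : Pool.Agent.H628R4.TP.IsLocalBFunction (sparse v a) b) :
    (∃ (K : ℕ) (P : ℂ[X]), algebraMap ℂ[X] (RatFunc ℂ)
      ((X + 1) * ∏ i ∈ Finset.range (K + 1), b.comp (X - C (i : ℂ))) * topZetaGLocal v R =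
        algebraMap ℂ[X] (RatFunc ℂ) P) ∧
    ∀ s0 : ℂ, (topZetaGLocal v R).denom.eval s0 = 0 → ∃ i : ℕ, b.eval (s0 - i) = 0 := by
  obtain ⟨h1, K, P, hP⟩ := local_of parts hr v a hv hv0 hnd R hR b hb
  exact ⟨⟨K, P, hP⟩, fun s0 hs => pole_of b hb0 h1 _ K P hP s0 hs⟩

end Pool.Agent.Results.MP_aa7fc1_ag.NondegenerateLocal
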